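import Pool.Agent.Helper87.PG.Stmts

set_option autoImplicit false

namespace Pool.Agent.Helper92.PG

open MvPolynomial Pool.Agent.Helper48.VMRT Pool.Agent.Helper87.VM Pool.Agent.Helper87.TC
  Pool.Agent.Helper87.PG

theorem ln_eq_span {n : ℕ} (z : Fin n → ℂ) :
    ln z = ((Submodule.span ℂ {z} : Submodule ℂ (Fin n → ℂ)) : Set (Fin n → ℂ)) := by
  ext x
  rw [SetLike.mem_coe, Submodule.mem_span_singleton]
  constructor
  · rintro ⟨a, ha⟩
    exact ⟨a, ha.symm⟩
  · rintro ⟨a, ha⟩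
    exact ⟨a, ha.symm⟩

theorem univ_prime : (vanishingIdeal ℂ (Set.univ : Set (Fin 1 → ℂ))).IsPrime := by
  have h : vanishingIdeal ℂ (Set.univ : Set (Fin 1 → ℂ)) = ⊥ := by
    rw [eq_bot_iff]
    intro p hp
    rw [Ideal.mem_bot]
    apply MvPolynomial.funext
    intro x
    rw [map_zero]
    exact mem_vI.1 hp x (Set.mem_univ x)
  rw [h]
  exact Ideal.isPrime_bot

theorem ln_prime {n : ℕ} (z : Fin n → ℂ) : (vanishingIdeal ℂ (ln z)).IsPrime := by
  have h := prime_image (S := (Set.univ : Set (Fin 1 → ℂ)))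
    (fun i : Fin n => (C (z i) * X 0 : MvPolynomial (Fin 1) ℂ)) univ_prime
  have e : ev (fun i : Fin n => (C (z i) * X 0 : MvPolynomial (Fin 1) ℂ)) ''
      (Set.univ : Set (Fin 1 → ℂ)) = ln z := by
    ext x
    constructor
    · rintro ⟨y, -, rfl⟩
      refine ⟨y 0, ?_⟩
      funext i
      simp [ev, mul_comm]
    · rintro ⟨a, rfl⟩
      refine ⟨fun _ => a, Set.mem_univ _, ?_⟩
      funext i
      simp [ev, mul_comm]
  rw [e] at h
  exact h

/-- The lines are the components. -/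
theorem st_LCO : ST_LCO := by
  intro n ι _ z hz
  refine ⟨?_, ?_, ?_, ?_, ?_⟩
  · intro i
    show ZClosed (ln (z i))
    rw [ln_eq_span]
    exact zclosed_submodule _
  · rintro i a x ⟨b, rfl⟩
    exact ⟨a * b, by rw [smul_smul]⟩
  · intro i
    exact ln_prime (z i)
  · intro i
    exact ⟨z i, ⟨1, by rw [one_smul]⟩, hz.ne i⟩
  · intro i j h
    by_contra hij
    obtain ⟨a, ha⟩ := h (⟨1, by rw [one_smul]⟩ : z i ∈ ln (z i))
    exact hz.dist i j hij a ha

end Pool.Agent.Helper92.PG
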